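import Pool.Agent.X205.DiscAP.Ext

/-!
# A discrete metric space whose completion contains a given compact set as a retract
-/

set_option autoImplicit false

open Set Filter Topology Metric
open Pool.Agent.H548R3.PFree Pool.Agent.Y53.FP

namespace Pool.Agent.X205.DiscAP

/-- the height of the `n`-th level -/
noncomputable def lev (n : ℕ) : ℝ := 1 / ((n : ℝ) + 1)

theorem lev_pos (n : ℕ) : 0 < lev n := by unfold lev; positivity

theorem lev_inj {m n : ℕ} (h : lev m = lev n) : m = n := by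
  unfold lev at h
  have h1 : ((m : ℝ) + 1) = (n : ℝ) + 1 := by
    have := congrArg (fun t => t⁻¹) h
    simpa using this
  exact_mod_cast add_right_cancel h1

theorem lev_gap (m n : ℕ) (h : m ≠ n) : 1 / (((n : ℝ) + 1) * ((n : ℝ) + 2)) ≤ |lev m - lev n| := by
  unfold lev
  have hn : (0 : ℝ) ≤ n := Nat.cast_nonneg n
  have hm : (0 : ℝ) ≤ m := Nat.cast_nonneg m
  rcases lt_or_gt_of_ne h with h | h
  · have h1 : (m : ℝ) + 1 ≤ n := by exact_mod_cast h
    rw [abs_of_nonneg]
    · rw [div_sub_div _ _ (by positivity) (by positivity), div_le_div_iff₀ (by positivity)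
        (by positivity)]
      have h2 : 0 ≤ ((n : ℝ) - m - 1) := by linarith
      nlinarith [mul_nonneg (mul_nonneg h2 (by linarith : (0 : ℝ) ≤ n + 1))
        (by linarith : (0 : ℝ) ≤ n + 2), mul_nonneg (by linarith : (0 : ℝ) ≤ n + 1)
        (by linarith : (0 : ℝ) ≤ n - m)]
    · rw [sub_nonneg]
      exact one_div_le_one_div_of_le (by positivity) (by linarith)
  · have h1 : (n : ℝ) + 1 ≤ m := by exact_mod_cast h
    rw [abs_sub_comm, abs_of_nonneg]
    · rw [div_sub_div _ _ (by positivity) (by positivity), div_le_div_iff₀ (by positivity)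
        (by positivity)]
      have h2 : 0 ≤ ((m : ℝ) - n - 1) := by linarith
      nlinarith [mul_nonneg (mul_nonneg h2 (by linarith : (0 : ℝ) ≤ n + 1))
        (by linarith : (0 : ℝ) ≤ n + 1)]
    · rw [sub_nonneg]
      exact one_div_le_one_div_of_le (by positivity) (by linarith)

variable {X : Type} [NormedAddCommGroup X]

/-- the levels -/
def combM (F : ℕ → Set X) : Set (X × ℝ) := {q | ∃ n, q.2 = lev n ∧ q.1 ∈ F n}

/-- the levels and the limit -/
def combN (C : Set X) (F : ℕ → Set X) : Set (X × ℝ) :=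
  {q | (q.1 ∈ C ∧ q.2 = 0) ∨ ∃ n, q.2 = lev n ∧ q.1 ∈ F n}

/-- inclusion -/
def inc (C : Set X) (F : ℕ → Set X) : combM F → combN C F := fun q => ⟨q.1, Or.inr q.2⟩

theorem inc_isometry (C : Set X) (F : ℕ → Set X) : Isometry (inc C F) := fun _ _ => rfl

theorem inc_dense {C : Set X} {F : ℕ → Set X} (hF : ∀ n, ∀ x ∈ C, ∃ y ∈ F n, dist x y < lev n) :
    DenseRange (inc C F) := by
  intro q
  rw [Metric.mem_closure_iff]
  intro ε hε
  obtain ⟨q, hq⟩ := q
  rcases hq with ⟨h1, h2⟩ | h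
  · obtain ⟨n, hn⟩ := exists_nat_gt (1 / ε)
    have hn' : lev n < ε := by
      unfold lev
      rw [div_lt_iff₀ (by positivity)]
      rw [div_lt_iff₀ hε] at hn
      nlinarith
    obtain ⟨y, hy, hd⟩ := hF n q.1 h1
    refine ⟨inc C F ⟨(y, lev n), n, rfl, hy⟩, ⟨_, rfl⟩, ?_⟩
    change dist q (y, lev n) < ε
    rw [Prod.dist_eq, max_lt_iff]
    refine ⟨hd.trans hn', ?_⟩
    rw [h2, Real.dist_eq, zero_sub, abs_neg, abs_of_pos (lev_pos n)]
    exact hn'
  · exact ⟨inc C F ⟨q, h⟩, ⟨_, rfl⟩, by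
      change dist q q < ε
      rw [dist_self]; exact hε⟩

omit [NormedAddCommGroup X] in
theorem combM_countable {F : ℕ → Set X} (hfin : ∀ n, (F n).Finite) : (combM F).Countable := by
  have : combM F ⊆ ⋃ n, (fun x : X => (x, lev n)) '' F n := by
    rintro ⟨x, t⟩ ⟨n, h1, h2⟩
    rw [mem_iUnion]
    refine ⟨n, x, h2, ?_⟩
    change (x, lev n) = (x, t)
    rw [← h1]
  exact (countable_iUnion fun n => ((hfin n).image _).countable).mono this

theorem combM_totallyBounded {C : Set X} (hC : IsCompact C) {F : ℕ → Set X}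
    (hFC : ∀ n, F n ⊆ C) : TotallyBounded (univ : Set (combM F)) := by
  have h1 : TotallyBounded (combM F) := by
    refine TotallyBounded.subset ?_ (hC.prod isCompact_Icc : IsCompact (C ×ˢ Icc (0 : ℝ) 1)).totallyBounded
    rintro ⟨x, t⟩ ⟨n, h1, h2⟩
    refine ⟨hFC n h2, ?_⟩
    change t ∈ Icc (0 : ℝ) 1
    change t = lev n at h1
    rw [h1]
    refine ⟨(lev_pos n).le, ?_⟩
    unfold lev
    rw [div_le_one (by positivity)]
    linarith [(Nat.cast_nonneg n : (0 : ℝ) ≤ n)]
  rw [← totallyBounded_image_iff (isUniformInducing_val (combM F)), image_univ,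
    Subtype.range_coe]
  exact h1

theorem combM_discrete {F : ℕ → Set X} (hfin : ∀ n, (F n).Finite) (q : combM F) :
    ∃ r : ℝ, 0 < r ∧ ∀ q' : combM F, dist q' q < r → q' = q := by
  obtain ⟨⟨x, t⟩, n, h1, h2⟩ := q
  change t = lev n at h1
  change x ∈ F n at h2
  subst h1
  have hcl : IsClosed (F n \ {x}) := ((hfin n).subset sdiff_subset).isClosed
  have hx : x ∈ (F n \ {x})ᶜ := by simp
  obtain ⟨r, hr, hball⟩ := Metric.isOpen_iff.1 hcl.isOpen_compl x hx
  refine ⟨min r (1 / (((n : ℝ) + 1) * ((n : ℝ) + 2))), lt_min hr (by positivity), ?_⟩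
  rintro ⟨⟨x', t'⟩, m, h3, h4⟩ hd
  change t' = lev m at h3
  change x' ∈ F m at h4
  subst h3
  change dist ((x', lev m) : X × ℝ) (x, lev n) < _ at hd
  rw [Prod.dist_eq, max_lt_iff, lt_min_iff, lt_min_iff] at hd
  obtain ⟨⟨hd1, -⟩, ⟨-, hd2⟩⟩ := hd
  have hmn : m = n := by
    by_contra hne
    have := lev_gap m n hne
    rw [← Real.dist_eq] at this
    exact absurd hd2 (not_lt.2 this)
  subst hmn
  have hxx : x' = x := by
    by_contra hne
    have h5 := hball (show x' ∈ ball x r from hd1)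
    exact h5 ⟨h4, hne⟩
  subst hxx
  rfl

end Pool.Agent.X205.DiscAP
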