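import Pool.Agent.Y53.FP.Final

/-!
# The Lipschitz free `p`-space over a dense subspace
-/

set_option autoImplicit false

open Set Filter Topology Metric
open Pool.Agent.H548R3.PFree Pool.Agent.Y53.FP

namespace Pool.Agent.X205.DiscAP

variable {p : ℝ} [hp : Fact (0 < p ∧ p ≤ 1)]

theorem norm_le_of_pnorm {Z : Type} [NormedAddCommGroup Z] {z : Z} {B : ℝ} (hB : 0 ≤ B)
    (h : pnorm p z ≤ B) : ‖z‖ ≤ B ^ p := (pnorm_le_iff z hB).1 h

/-- maps which are Lipschitz for the `p`-norm are continuous -/
theorem continuous_of_lip {N Z : Type} [MetricSpace N] [NormedAddCommGroup Z] {f : N → Z}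
    (hf : ∃ L : ℝ, ∀ x y, pnorm p (f x - f y) ≤ L * dist x y) : Continuous f := by
  obtain ⟨L, hL⟩ := hf
  rw [Metric.continuous_iff]
  intro x ε hε
  have hp0 := hp.out.1
  have h1 : Tendsto (fun t : ℝ => (|L| * t) ^ p) (𝓝 0) (𝓝 0) := by
    have h2 : Tendsto (fun t : ℝ => (|L| * t)) (𝓝 0) (𝓝 (|L| * 0)) :=
      tendsto_id.const_mul _
    rw [mul_zero] at h2
    have h3 := h2.rpow_const (p := p) (Or.inr hp0.le)
    rwa [Real.zero_rpow hp0.ne'] at h3
  obtain ⟨δ, hδ, hδ'⟩ := Metric.tendsto_nhds_nhds.1 h1 ε hε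
  refine ⟨δ, hδ, fun y hy => ?_⟩
  have h4 : pnorm p (f y - f x) ≤ |L| * dist y x :=
    (hL y x).trans (mul_le_mul_of_nonneg_right (le_abs_self _) dist_nonneg)
  have h5 := norm_le_of_pnorm (mul_nonneg (abs_nonneg _) dist_nonneg) h4
  have h6 := hδ' (x := dist y x) (by rw [Real.dist_eq, sub_zero, abs_of_nonneg dist_nonneg]; exact hy)
  rw [dist_zero_right, Real.norm_of_nonneg (Real.rpow_nonneg
    (mul_nonneg (abs_nonneg _) dist_nonneg) _)] at h6
  rw [dist_eq_norm]
  exact lt_of_le_of_lt h5 h6

/-- continuity of the `p`-norm -/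
theorem continuous_pnorm {Z : Type} [NormedAddCommGroup Z] :
    Continuous (fun z : Z => pnorm p z) := by
  unfold pnorm
  exact continuous_norm.rpow_const fun z => Or.inr (by
    have := hp.out.1
    positivity)

/-- **The free space over a dense subspace is the free space over the whole space.** -/
theorem extend_free {M N : Type} [MetricSpace M] [MetricSpace N] {i : M → N} (hi : Isometry i)
    (hd : DenseRange i) {o : M} {Z : Type} [NormedAddCommGroup Z] [Module ℝ Z] {δ : M → Z}
    (h : IsLipschitzFree p M o Z δ) : ∃ δ' : N → Z, IsLipschitzFree p N (i o) Z δ' := by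
  have hp0 := hp.out.1
  have hcomp : CompleteSpace Z := h.banach.2
  have hdi : IsDenseInducing i := hi.isUniformInducing.isDenseInducing hd
  -- `δ` is uniformly continuous
  have huc : UniformContinuous δ := by
    rw [Metric.uniformContinuous_iff]
    intro ε hε
    have h1 : Tendsto (fun t : ℝ => t ^ p) (𝓝 0) (𝓝 0) := by
      have h3 := (tendsto_id (α := ℝ) (x := 𝓝 0)).rpow_const (p := p) (Or.inr hp0.le)
      simp only [id] at h3
      rwa [Real.zero_rpow hp0.ne'] at h3
    obtain ⟨r, hr, hr'⟩ := Metric.tendsto_nhds_nhds.1 h1 ε hε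
    refine ⟨r, hr, fun {x y} hxy => ?_⟩
    have h4 := norm_le_of_pnorm (p := p) dist_nonneg (h.isometric x y).le
    have h6 := hr' (x := dist x y) (by
      rw [Real.dist_eq, sub_zero, abs_of_nonneg dist_nonneg]; exact hxy)
    rw [dist_zero_right, Real.norm_of_nonneg (Real.rpow_nonneg dist_nonneg _)] at h6
    rw [dist_eq_norm]
    exact lt_of_le_of_lt h4 h6
  set δ' : N → Z := hdi.extend δ with hδ'
  have hc : Continuous δ' :=
    (uniformContinuous_uniformly_extend hi.isUniformInducing hd huc).continuous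
  have hext : ∀ x, δ' (i x) = δ x := fun x => hdi.extend_eq huc.continuous x
  have hiso : ∀ x y, pnorm p (δ' x - δ' y) = dist x y := by
    have h1 : ∀ q : N × N, pnorm p (δ' q.1 - δ' q.2) = dist q.1 q.2 := by
      have hcl : IsClosed {q : N × N | pnorm p (δ' q.1 - δ' q.2) = dist q.1 q.2} :=
        isClosed_eq (continuous_pnorm.comp ((hc.comp continuous_fst).sub (hc.comp continuous_snd)))
          continuous_dist
      have hdd : DenseRange (Prod.map i i) := hd.prodMap hd
      intro q
      have : q ∈ closure (range (Prod.map i i)) := hdd q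
      refine (closure_minimal ?_ hcl) this
      rintro _ ⟨⟨a, b⟩, rfl⟩
      change pnorm p (δ' (i a) - δ' (i b)) = dist (i a) (i b)
      rw [hext, hext, h.isometric, hi.dist_eq]
    exact fun x y => h1 (x, y)
  refine ⟨δ', ⟨h.banach, by rw [hext]; exact h.base, hiso, ?_, ?_⟩⟩
  · refine h.dense.mono ?_
    refine Submodule.span_mono ?_
    rintro _ ⟨x, rfl⟩
    exact ⟨i x, hext x⟩
  · intro X _ _ hX f hf0 hfL
    obtain ⟨L0, hL0⟩ := hfL
    obtain ⟨T, hT1, hT2, hT3⟩ := h.lift X hX (fun x => f (i x)) hf0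
      ⟨L0, fun x y => by rw [← hi.dist_eq x y]; exact hL0 _ _⟩
    have hfc : Continuous f := continuous_of_lip (p := p) ⟨L0, hL0⟩
    have hTf : ∀ y, T (δ' y) = f y := by
      intro y
      have hcl : IsClosed {y | T (δ' y) = f y} := isClosed_eq (T.continuous.comp hc) hfc
      refine (closure_minimal ?_ hcl) (hd y)
      rintro _ ⟨x, rfl⟩
      change T (δ' (i x)) = f (i x)
      rw [hext, hT1]
    refine ⟨T, hTf, fun L hL => ⟨fun h1 => ?_, fun h1 x y => ?_⟩, fun T' hT' => ?_⟩
    · exact (hT2 L hL).1 fun x y => by rw [← hi.dist_eq x y]; exact h1 _ _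
    · have := h1 (δ' x - δ' y)
      rw [map_sub, hTf, hTf, hiso] at this
      exact this
    · exact hT3 T' fun x => by rw [← hext, hT']

/-- AP fails for the dense subspace if it fails for the whole space. -/
theorem fails_of_dense {M N : Type} [MetricSpace M] [MetricSpace N] {i : M → N} (hi : Isometry i)
    (hd : DenseRange i) {o : M} (h : FreeFailsAP p N (i o)) : FreeFailsAP p M o := by
  refine ⟨⟨FF p M, inferInstance, inferInstance, fun x => cl x o, isLipschitzFree o⟩, ?_⟩
  intro Z _ _ δ hδ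
  obtain ⟨δ', hδ'⟩ := extend_free hi hd hδ
  exact h.2 Z δ' hδ'

end Pool.Agent.X205.DiscAP
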